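import Pool.Agent.H46.SK.Targets

/-! Module PERB of the po board (helper46). -/

namespace Pool.Agent.H33.PO.PERB

open Finset SK

/-- The periodic sequence. -/
noncomputable def g (k n : ℕ) (z : ZMod n) : ℝ := (-1 : ℝ) ^ ((-(2 * z + 1) * (k : ZMod n)⁻¹).val)

theorem eps_eq (k : ℕ) [hk : Fact k.Prime] (hk2 : k ≠ 2) (n : ℕ) (hn : n % 2 = 1) (hnk : n < k)
    (i : ℕ) (hi : 2 * i + 1 < k) :
    eps k (((2 * i + 1 : ℕ) : ZMod k) * (n : ZMod k)⁻¹) = g k n (i : ZMod n) := by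
  have hkp : k.Prime := hk.out
  have hkodd : k % 2 = 1 := (hkp.eq_two_or_odd).resolve_left hk2
  have hn0 : 0 < n := by omega
  have : NeZero n := ⟨by omega⟩
  have : NeZero k := ⟨by omega⟩
  set x : ℕ := (((2 * i + 1 : ℕ) : ZMod k) * (n : ZMod k)⁻¹).val with hx
  have hnk0 : (n : ZMod k) ≠ 0 := by
    intro h
    rw [ZMod.natCast_eq_zero_iff] at h
    exact absurd (Nat.le_of_dvd hn0 h) (by omega)
  have hxc : ((n * x : ℕ) : ZMod k) = ((2 * i + 1 : ℕ) : ZMod k) := by
    rw [Nat.cast_mul, hx, ZMod.natCast_val, ZMod.cast_id]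
    field_simp
  have hmod : (n * x) % k = 2 * i + 1 := by
    have h1 := (ZMod.natCast_eq_natCast_iff' _ _ _).mp hxc
    rw [h1, Nat.mod_eq_of_lt hi]
  have hxk : x < k := ZMod.val_lt _
  set c : ℕ := (n * x) / k with hc
  have hdm : k * c + (2 * i + 1) = n * x := by
    rw [← hmod, hc]; exact Nat.div_add_mod _ _
  have hcn : c < n := by
    rw [hc]
    exact Nat.div_lt_of_lt_mul (by rw [mul_comm k n]; exact Nat.mul_lt_mul_of_pos_left hxk hn0)
  have hcop : Nat.Coprime k n := (Nat.Prime.coprime_iff_not_dvd hkp).mpr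
    (fun h => absurd (Nat.le_of_dvd hn0 h) (by omega))
  have hkn : (k : ZMod n) * (k : ZMod n)⁻¹ = 1 := ZMod.coe_mul_inv_eq_one k hcop
  have hcz : (c : ZMod n) = -(2 * (i : ZMod n) + 1) * (k : ZMod n)⁻¹ := by
    have h1 : ((k * c + (2 * i + 1) : ℕ) : ZMod n) = ((n * x : ℕ) : ZMod n) := by rw [hdm]
    push_cast at h1
    rw [ZMod.natCast_self, zero_mul] at h1
    have h2 : (k : ZMod n) * c = -(2 * (i : ZMod n) + 1) := by
      linear_combination h1
    rw [← h2]
    calc (c : ZMod n) = c * ((k : ZMod n) * (k : ZMod n)⁻¹) := by rw [hkn, mul_one]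
      _ = (k : ZMod n) * c * (k : ZMod n)⁻¹ := by ring
  have hval : (-(2 * (i : ZMod n) + 1) * (k : ZMod n)⁻¹).val = c := by
    rw [← hcz]; exact ZMod.val_cast_of_lt hcn
  unfold g
  rw [hval]
  have hne : ((2 * i + 1 : ℕ) : ZMod k) * (n : ZMod k)⁻¹ ≠ 0 := by
    apply mul_ne_zero
    · intro h
      rw [ZMod.natCast_eq_zero_iff] at h
      exact absurd (Nat.le_of_dvd (by omega) h) (by omega)
    · exact inv_ne_zero hnk0
  unfold eps
  rw [if_neg hne, ← hx]
  have hpar : (x % 2 = 1) ↔ (c % 2 = 0) := by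
    have h1 : (k * c + (2 * i + 1)) % 2 = (n * x) % 2 := by rw [hdm]
    have h2 : (k * c) % 2 = c % 2 := by
      rw [Nat.mul_mod, hkodd, one_mul, Nat.mod_mod]
    have h3 : (n * x) % 2 = x % 2 := by
      rw [Nat.mul_mod, hn, one_mul, Nat.mod_mod]
    omega
  by_cases h : c % 2 = 0
  · rw [if_pos (hpar.mpr h), (Nat.even_iff.mpr h).neg_one_pow]
  · rw [if_neg (fun h' => h (hpar.mp h'))]
    have : Odd c := Nat.odd_iff.mpr (by omega)
    rw [this.neg_one_pow]

theorem sum_range_zmod (n : ℕ) [NeZero n] (F : ZMod n → ℝ) :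
    ∑ i ∈ Finset.range n, F (i : ZMod n) = ∑ z : ZMod n, F z := by
  apply Finset.sum_bij (fun (i : ℕ) (_ : i ∈ Finset.range n) => ((i : ℕ) : ZMod n))
  · intro i _; exact Finset.mem_univ _
  · intro i hi j hj h
    rw [Finset.mem_range] at hi hj
    have := (ZMod.natCast_eq_natCast_iff' _ _ _).mp h
    rwa [Nat.mod_eq_of_lt hi, Nat.mod_eq_of_lt hj] at this
  · intro z _
    exact ⟨z.val, Finset.mem_range.mpr (ZMod.val_lt z), by simp⟩
  · intro i _; rfl

theorem full (k n : ℕ) (hn : n % 2 = 1) (hcop : Nat.Coprime k n) :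
    ∑ i ∈ Finset.range n, g k n (i : ZMod n) = 1 := by
  have hn0 : 0 < n := by omega
  have : NeZero n := ⟨by omega⟩
  rw [sum_range_zmod n (g k n)]
  have hkn : (k : ZMod n) * (k : ZMod n)⁻¹ = 1 := ZMod.coe_mul_inv_eq_one k hcop
  have h2n : ((2 : ℕ) : ZMod n) * ((2 : ℕ) : ZMod n)⁻¹ = 1 := by
    apply ZMod.coe_mul_inv_eq_one
    rw [Nat.coprime_two_left]
    exact Nat.odd_iff.mpr hn
  have hbij : Function.Bijective (fun z : ZMod n => -(2 * z + 1) * (k : ZMod n)⁻¹) := by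
    apply Finite.injective_iff_bijective.mp
    intro a b hab
    have hab : -(2 * a + 1) * (k : ZMod n)⁻¹ = -(2 * b + 1) * (k : ZMod n)⁻¹ := hab
    have h1 : (2 : ZMod n) * a = 2 * b := by
      have : -(-(2 * a + 1) * (k : ZMod n)⁻¹ * (k : ZMod n)) =
          -(-(2 * b + 1) * (k : ZMod n)⁻¹ * (k : ZMod n)) := by rw [hab]
      have e : ∀ z : ZMod n, -(-(2 * z + 1) * (k : ZMod n)⁻¹ * (k : ZMod n)) = 2 * z + 1 := by
        intro z
        linear_combination (2 * z + 1) * hkn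
      rw [e a, e b] at this
      linear_combination this
    have : (2 : ZMod n) * a * ((2 : ℕ) : ZMod n)⁻¹ = 2 * b * ((2 : ℕ) : ZMod n)⁻¹ := by rw [h1]
    push_cast at h2n
    push_cast at this
    linear_combination this - a * h2n + b * h2n
  have h1 : ∑ z : ZMod n, g k n z = ∑ z : ZMod n, (-1 : ℝ) ^ z.val := by
    unfold g
    exact hbij.sum_comp (fun z : ZMod n => (-1 : ℝ) ^ z.val)
  rw [h1, ← sum_range_zmod n (fun z => (-1 : ℝ) ^ z.val)]
  have h2 : ∑ i ∈ Finset.range n, (-1 : ℝ) ^ ((i : ZMod n)).val =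
      ∑ i ∈ Finset.range n, (-1 : ℝ) ^ i := by
    apply Finset.sum_congr rfl
    intro i hi
    rw [ZMod.val_cast_of_lt (Finset.mem_range.mp hi)]
  rw [h2, neg_one_geom_sum, if_neg]
  rw [Nat.even_iff]; omega

theorem periodic_sum (n : ℕ) (G : ℕ → ℝ) (hG : ∀ i, G (i + n) = G i)
    (h1 : ∑ i ∈ Finset.range n, G i = 1) (a b : ℕ) :
    ∑ i ∈ Finset.range (n * a + b), G i = a + ∑ i ∈ Finset.range b, G i := by
  induction a with
  | zero => simp
  | succ a ih =>
    have e : n * (a + 1) + b = n + (n * a + b) := by ring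
    rw [e, Finset.sum_range_add, h1]
    have e2 : ∑ i ∈ Finset.range (n * a + b), G (n + i) =
        ∑ i ∈ Finset.range (n * a + b), G i := by
      apply Finset.sum_congr rfl
      intro i _
      rw [add_comm n i]; exact hG i
    rw [e2, ih]
    push_cast
    ring

theorem pf_PERB : TARGET_PERB := by
  intro k _ hk2 n hn V hV
  unfold odds at hn
  rw [Finset.mem_filter, Finset.mem_range] at hn
  obtain ⟨hnk, hn1⟩ := hn
  have hkp : k.Prime := Fact.out
  have hn0 : 0 < n := by omega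
  have hkodd : k % 2 = 1 := (hkp.eq_two_or_odd).resolve_left hk2
  have hcop : Nat.Coprime k n := (Nat.Prime.coprime_iff_not_dvd hkp).mpr
    (fun h => absurd (Nat.le_of_dvd hn0 h) (by omega))
  have e1 : ∑ i ∈ Finset.range V, eps k (((2 * i + 1 : ℕ) : ZMod k) * (n : ZMod k)⁻¹) =
      ∑ i ∈ Finset.range V, g k n (i : ZMod n) := by
    apply Finset.sum_congr rfl
    intro i hi
    rw [Finset.mem_range] at hi
    exact eps_eq k hk2 n hn1 hnk i (by omega)
  have e2 := periodic_sum n (fun i => g k n (i : ZMod n)) (by intro i; simp) (full k n hn1 hcop)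
    (V / n) (V % n)
  rw [Nat.div_add_mod] at e2
  rw [e1, e2]
  have hb : V % n < n := Nat.mod_lt _ hn0
  have hg : ∀ z : ZMod n, |g k n z| ≤ 1 := by
    intro z; unfold g; rw [abs_pow]; simp
  have hrest : |∑ i ∈ Finset.range (V % n), g k n (i : ZMod n)| ≤ (V % n : ℕ) := by
    calc |∑ i ∈ Finset.range (V % n), g k n (i : ZMod n)|
        ≤ ∑ i ∈ Finset.range (V % n), |g k n (i : ZMod n)| := Finset.abs_sum_le_sum_abs _ _
      _ ≤ ∑ i ∈ Finset.range (V % n), (1 : ℝ) := Finset.sum_le_sum fun i _ => hg _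
      _ = (V % n : ℕ) := by simp
  have hnR : (0 : ℝ) < n := by exact_mod_cast hn0
  have hVn : (V : ℝ) / n = (V / n : ℕ) + (V % n : ℕ) / n := by
    have h : ((n * (V / n) + V % n : ℕ) : ℝ) = V := by rw [Nat.div_add_mod]
    push_cast at h
    rw [← h]
    field_simp
  rw [hVn]
  have hbR : ((V % n : ℕ) : ℝ) ≤ n - 1 := by
    have : V % n + 1 ≤ n := hb
    have h : ((V % n + 1 : ℕ) : ℝ) ≤ n := by exact_mod_cast this
    push_cast at h
    linarith
  have hb0 : (0 : ℝ) ≤ ((V % n : ℕ) : ℝ) := Nat.cast_nonneg _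
  have hbn : ((V % n : ℕ) : ℝ) / n ≤ 1 := by
    rw [div_le_one hnR]; linarith
  have hbn0 : 0 ≤ ((V % n : ℕ) : ℝ) / n := by positivity
  rw [abs_le] at hrest ⊢
  constructor <;> linarith [hrest.1, hrest.2]

end Pool.Agent.H33.PO.PERB
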