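import Pool.Agent.H46.SK.Targets

/-! Module SMO of the po board (helper46): Rankin's bound. -/

namespace Pool.Agent.H33.PO.SMO

open Finset SK

/-- The completely multiplicative function `n ↦ n ^ s`. -/
noncomputable def F (s : ℝ) : ℕ →* ℝ where
  toFun n := (n : ℝ) ^ s
  map_one' := by simp
  map_mul' a b := by
    rw [Nat.cast_mul, Real.mul_rpow (Nat.cast_nonneg a) (Nat.cast_nonneg b)]

theorem F_apply (s : ℝ) (n : ℕ) : F s n = (n : ℝ) ^ s := rfl

theorem exp_quarter : Real.exp (1 / 4) ≤ 1.3 := by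
  by_contra h
  push Not at h
  have h1 : Real.exp (1 / 4) ^ 4 = Real.exp 1 := by
    rw [← Real.exp_nat_mul]; norm_num
  have h2 : (1.3 : ℝ) ^ 4 < Real.exp (1 / 4) ^ 4 := pow_lt_pow_left₀ h (by norm_num) (by norm_num)
  rw [h1] at h2
  have h3 := Real.exp_one_lt_d9
  norm_num at h2
  linarith

theorem tp_bounds (y : ℕ) (hy : 21 ≤ y) (p : ℕ) (hp2 : 2 ≤ p) (hpy : p ≤ y) :
    (p : ℝ) ^ (1 / Real.log y - 1) ≤ Real.exp 1 / p ∧
      (p : ℝ) ^ (1 / Real.log y - 1) ≤ 0.65 ∧ 0 < (p : ℝ) ^ (1 / Real.log y - 1) := by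
  have hpR : (0 : ℝ) < p := by exact_mod_cast (by omega : 0 < p)
  have hyR : (0 : ℝ) < y := by exact_mod_cast (by omega : 0 < y)
  have hlog16 : 4 * Real.log 2 ≤ Real.log y := by
    have h1 : Real.log 16 ≤ Real.log y := Real.log_le_log (by norm_num) (by
      have : (16 : ℕ) ≤ y := by omega
      exact_mod_cast this)
    have h2 : Real.log 16 = 4 * Real.log 2 := by
      rw [show (16 : ℝ) = 2 ^ 4 by norm_num, Real.log_pow]; norm_num
    linarith
  have hl2 : 0 < Real.log 2 := Real.log_pos (by norm_num)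
  have hly : 0 < Real.log y := by linarith
  refine ⟨?_, ?_, Real.rpow_pos_of_pos hpR _⟩
  · rw [Real.rpow_sub hpR, Real.rpow_one]
    apply div_le_div_of_nonneg_right _ hpR.le
    rw [Real.rpow_def_of_pos hpR]
    apply Real.exp_le_exp.mpr
    rw [mul_one_div, div_le_one hly]
    exact Real.log_le_log hpR (by exact_mod_cast hpy)
  · have hexp : 1 / Real.log y - 1 ≤ 0 := by
      have : 1 / Real.log y ≤ 1 := by
        rw [div_le_one hly]
        have := Real.log_two_gt_d9
        linarith
      linarith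
    have h1 : (p : ℝ) ^ (1 / Real.log y - 1) ≤ (2 : ℝ) ^ (1 / Real.log y - 1) :=
      Real.rpow_le_rpow_of_nonpos (by norm_num) (by exact_mod_cast hp2) hexp
    refine h1.trans ?_
    rw [Real.rpow_sub (by norm_num), Real.rpow_one, Real.rpow_def_of_pos (by norm_num)]
    have h2 : Real.log 2 * (1 / Real.log y) ≤ 1 / 4 := by
      rw [mul_one_div, div_le_div_iff₀ hly (by norm_num)]
      linarith
    have h3 : Real.exp (Real.log 2 * (1 / Real.log y)) ≤ 1.3 :=
      (Real.exp_le_exp.mpr h2).trans exp_quarter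
    rw [div_le_iff₀ (by norm_num)]
    linarith

theorem factor_bound (y : ℕ) (hy : 21 ≤ y) (p : ℕ) (hp2 : 2 ≤ p) (hpy : p ≤ y) :
    (1 - (p : ℝ) ^ (1 / Real.log y - 1))⁻¹ ≤ Real.exp (8 * (1 / (p : ℝ))) := by
  obtain ⟨h1, h2, h3⟩ := tp_bounds y hy p hp2 hpy
  have hpR : (0 : ℝ) < p := by exact_mod_cast (by omega : 0 < p)
  set t := (p : ℝ) ^ (1 / Real.log y - 1) with ht
  have hpos : 0 < 1 - t := by linarith
  have e : (1 - t)⁻¹ = t / (1 - t) + 1 := by field_simp; ring
  rw [e]
  refine (Real.add_one_le_exp _).trans (Real.exp_le_exp.mpr ?_)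
  have h4 : t / (1 - t) ≤ t / 0.35 := by
    apply div_le_div_of_nonneg_left h3.le (by norm_num)
    linarith
  refine h4.trans ?_
  have h5 := Real.exp_one_lt_d9
  have h6 : Real.exp 1 / p ≤ 2.7182818286 * (1 / (p : ℝ)) := by
    rw [div_eq_mul_one_div]
    exact mul_le_mul_of_nonneg_right h5.le (by positivity)
  have h7 : 0 < 1 / (p : ℝ) := by positivity
  rw [div_le_iff₀ (by norm_num)]
  nlinarith

theorem sum_primes (y : ℕ) (hy : 1 ≤ y) :
    ∑ p ∈ (y + 1).primesBelow, (1 : ℝ) / p ≤ Real.log y := by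
  have h := harmonic_le_one_add_log y
  rw [harmonic_eq_sum_Icc] at h
  push_cast at h
  have h1 : insert 1 (y + 1).primesBelow ⊆ Finset.Icc 1 y := by
    intro p hp
    rw [Finset.mem_insert] at hp
    rw [Finset.mem_Icc]
    rcases hp with rfl | hp
    · omega
    · have h2 := Nat.lt_of_mem_primesBelow hp
      have h3 := (Nat.prime_of_mem_primesBelow hp).two_le
      omega
  have h2 : ∑ p ∈ insert 1 (y + 1).primesBelow, ((p : ℝ))⁻¹ ≤ ∑ p ∈ Finset.Icc 1 y, ((p : ℝ))⁻¹ :=
    Finset.sum_le_sum_of_subset_of_nonneg h1 (fun i _ _ => by positivity)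
  rw [Finset.sum_insert] at h2
  · simp only [one_div]
    push_cast at h2
    rw [inv_one] at h2
    linarith
  · intro hm
    exact absurd (Nat.prime_of_mem_primesBelow hm) Nat.not_prime_one

theorem pf_SMO : TARGET_SMO := by
  classical
  intro y N hy hN s hs
  set η : ℝ := 1 / Real.log y with hη
  have hyR : (0 : ℝ) < y := by exact_mod_cast (by omega : 0 < y)
  have hly : 0 < Real.log y := Real.log_pos (by exact_mod_cast (by omega : 1 < y))
  have hη0 : 0 < η := by positivity
  have hη1 : η - 1 < 0 := by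
    have : η < 1 := by
      rw [hη, div_lt_one hly]
      have h1 : Real.log 16 ≤ Real.log y := Real.log_le_log (by norm_num) (by
        have : (16 : ℕ) ≤ y := by omega
        exact_mod_cast this)
      have h2 : Real.log 16 = 4 * Real.log 2 := by
        rw [show (16 : ℝ) = 2 ^ 4 by norm_num, Real.log_pow]; norm_num
      have := Real.log_two_gt_d9
      linarith
    linarith
  have hNR : (0 : ℝ) < N := by exact_mod_cast (by omega : 0 < N)
  -- Euler product
  have hF1 : ∀ {p : ℕ}, p.Prime → ‖F (η - 1) p‖ < 1 := by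
    intro p hp
    rw [F_apply, Real.norm_of_nonneg (Real.rpow_nonneg (Nat.cast_nonneg p) _)]
    exact Real.rpow_lt_one_of_one_lt_of_neg (by exact_mod_cast hp.one_lt) hη1
  obtain ⟨_, hsum⟩ :=
    EulerProduct.summable_and_hasSum_smoothNumbers_prod_primesBelow_geometric hF1 (y + 1)
  have hsm : ∀ n ∈ s, n ∈ (y + 1).smoothNumbers := by
    intro n hn
    obtain ⟨h1, h2⟩ := hs n hn
    rw [Nat.mem_smoothNumbers']
    intro p hp hpn
    have := h2 p hp hpn
    omega
  have hfin : ∑ n ∈ s, F (η - 1) n ≤ ∏ p ∈ (y + 1).primesBelow, (1 - F (η - 1) p)⁻¹ := by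
    rw [← Finset.sum_subtype_of_mem (fun n => F (η - 1) n) hsm]
    apply sum_le_hasSum _ _ hsum
    intro i _
    rw [F_apply]
    exact Real.rpow_nonneg (Nat.cast_nonneg _) _
  have hprod : ∏ p ∈ (y + 1).primesBelow, (1 - F (η - 1) p)⁻¹ ≤ (y : ℝ) ^ 8 := by
    calc ∏ p ∈ (y + 1).primesBelow, (1 - F (η - 1) p)⁻¹
        ≤ ∏ p ∈ (y + 1).primesBelow, Real.exp (8 * (1 / (p : ℝ))) := by
          apply Finset.prod_le_prod
          · intro p hp
            have h1 := Nat.lt_of_mem_primesBelow hp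
            have h2 := (Nat.prime_of_mem_primesBelow hp).two_le
            obtain ⟨_, h3, _⟩ := tp_bounds y hy p h2 (by omega)
            rw [F_apply]
            apply inv_nonneg.mpr
            linarith
          · intro p hp
            have h1 := Nat.lt_of_mem_primesBelow hp
            have h2 := (Nat.prime_of_mem_primesBelow hp).two_le
            rw [F_apply]
            exact factor_bound y hy p h2 (by omega)
      _ = Real.exp (8 * ∑ p ∈ (y + 1).primesBelow, 1 / (p : ℝ)) := by
          rw [← Real.exp_sum, Finset.mul_sum]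
      _ ≤ Real.exp (8 * Real.log y) := by
          apply Real.exp_le_exp.mpr
          have := sum_primes y (by omega)
          linarith
      _ = (y : ℝ) ^ 8 := by
          have h : (8 : ℝ) * Real.log y = Real.log ((y : ℝ) ^ 8) := by
            rw [Real.log_pow]; norm_num
          rw [h, Real.exp_log (by positivity)]
  have hterm : ∀ n ∈ s, (1 : ℝ) / n ≤ Real.exp (-(Real.log N / Real.log y)) * F (η - 1) n := by
    intro n hn
    obtain ⟨h1, _⟩ := hs n hn
    have hnR : (0 : ℝ) < n := by exact_mod_cast (by omega : 0 < n)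
    have hlogN : Real.log N ≤ Real.log n := Real.log_le_log hNR (by exact_mod_cast h1.le)
    have e1 : (1 : ℝ) / n = Real.exp (-Real.log n) := by
      rw [Real.exp_neg, Real.exp_log hnR, one_div]
    rw [F_apply, Real.rpow_def_of_pos hnR, ← Real.exp_add, e1]
    apply Real.exp_le_exp.mpr
    have e2 : Real.log N / Real.log y = Real.log N * η := by rw [hη]; ring
    rw [e2]
    nlinarith
  calc ∑ n ∈ s, (1 : ℝ) / n
      ≤ ∑ n ∈ s, Real.exp (-(Real.log N / Real.log y)) * F (η - 1) n :=
        Finset.sum_le_sum hterm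
    _ = Real.exp (-(Real.log N / Real.log y)) * ∑ n ∈ s, F (η - 1) n := by
        rw [Finset.mul_sum]
    _ ≤ Real.exp (-(Real.log N / Real.log y)) * (y : ℝ) ^ 8 :=
        mul_le_mul_of_nonneg_left (hfin.trans hprod) (Real.exp_pos _).le
    _ = (y : ℝ) ^ 8 * Real.exp (-(Real.log N / Real.log y)) := by ring

end Pool.Agent.H33.PO.SMO
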