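import Pool.Agent.H46.SK.Targets

/-! Module TAIL of the po board (helper46). -/

namespace Pool.Agent.H33.PO.TAIL

open Finset SK

theorem abs_eps_le (k : ℕ) (x : ZMod k) : |eps k x| ≤ 1 := by
  unfold eps
  split_ifs <;> simp

theorem rest_sum (k : ℕ) (f : ℕ → ZMod k) (r : ℕ) :
    |∑ i ∈ Finset.range r, eps k (f i)| ≤ r := by
  calc |∑ i ∈ Finset.range r, eps k (f i)|
      ≤ ∑ i ∈ Finset.range r, |eps k (f i)| := Finset.abs_sum_le_sum_abs _ _
    _ ≤ ∑ i ∈ Finset.range r, (1 : ℝ) := Finset.sum_le_sum fun i _ => abs_eps_le _ _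
    _ = r := by simp

theorem block_sum (k : ℕ) (θ : ZMod k) (q : ℕ)
    (hB : ∀ c : ZMod k, |∑ i ∈ Finset.range q, eps k (c + 2 * (i : ZMod k) * θ)| ≤ 12)
    (l r : ℕ) : ∀ c : ZMod k,
    |∑ i ∈ Finset.range (q * l + r), eps k (c + 2 * (i : ZMod k) * θ)| ≤ 12 * l + r := by
  induction l with
  | zero =>
    intro c
    simpa using rest_sum k (fun i => c + 2 * (i : ZMod k) * θ) r
  | succ l ih =>
    intro c
    have e : q * (l + 1) + r = q + (q * l + r) := by ring
    rw [e, Finset.sum_range_add]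
    have e2 : ∑ i ∈ Finset.range (q * l + r), eps k (c + 2 * ((q + i : ℕ) : ZMod k) * θ) =
        ∑ i ∈ Finset.range (q * l + r), eps k ((c + 2 * q * θ) + 2 * (i : ZMod k) * θ) := by
      apply Finset.sum_congr rfl
      intro i _
      congr 1
      push_cast
      ring
    rw [e2]
    have h1 := hB c
    have h2 := ih (c + 2 * q * θ)
    refine (abs_add_le _ _).trans ?_
    push_cast
    linarith

theorem partial_sum (k : ℕ) (θ : ZMod k) (q : ℕ) (hq : 0 < q)
    (hB : ∀ c : ZMod k, |∑ i ∈ Finset.range q, eps k (c + 2 * (i : ZMod k) * θ)| ≤ 12)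
    (c : ZMod k) (j : ℕ) :
    |∑ i ∈ Finset.range j, eps k (c + 2 * (i : ZMod k) * θ)| ≤ 12 * (j : ℝ) / q + q := by
  have h := block_sum k θ q hB (j / q) (j % q) c
  rw [Nat.div_add_mod] at h
  have hqR : (0 : ℝ) < q := by exact_mod_cast hq
  have h1 : ((j / q : ℕ) : ℝ) ≤ (j : ℝ) / q := Nat.cast_div_le
  have h2 : ((j % q : ℕ) : ℝ) ≤ q := by exact_mod_cast (Nat.mod_lt j hq).le
  have h3 : 12 * (j : ℝ) / q = 12 * ((j : ℝ) / q) := by ring
  rw [h3]
  linarith

theorem filter_eq (k U : ℕ) (hk : k % 2 = 1) :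
    (odds k).filter (fun u => U < u) =
      (Finset.range ((k - (U + 1 + U % 2)) / 2)).image (fun i => (U + 1 + U % 2) + 2 * i) := by
  ext u
  unfold odds
  simp only [Finset.mem_filter, Finset.mem_range, Finset.mem_image]
  constructor
  · rintro ⟨⟨h1, h2⟩, h3⟩
    refine ⟨(u - (U + 1 + U % 2)) / 2, ?_, ?_⟩ <;> omega
  · rintro ⟨i, h1, h2⟩
    omega

theorem sum_eq (k U : ℕ) (hk : k % 2 = 1) (F : ℕ → ℝ) :
    ∑ u ∈ (odds k).filter (fun u => U < u), F u =
      ∑ i ∈ Finset.range ((k - (U + 1 + U % 2)) / 2), F ((U + 1 + U % 2) + 2 * i) := by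
  rw [filter_eq k U hk, Finset.sum_image]
  intro a _ b _ hab
  have hab' : (U + 1 + U % 2) + 2 * a = (U + 1 + U % 2) + 2 * b := hab
  omega

theorem pf_TAIL (hWGT : TARGET_WGT) (hABEL : TARGET_ABEL) (hBLK : TARGET_BLK) : TARGET_TAIL := by
  intro k _ hk2 θ q U a hq hg hap
  have hkp : k.Prime := Fact.out
  have hkodd : k % 2 = 1 := (hkp.eq_two_or_odd).resolve_left hk2
  have hk3 : 3 ≤ k := by
    have := hkp.two_le
    omega
  obtain ⟨hpos, hle, _, hanti, _, htot⟩ := hWGT k hk3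
  have hB : ∀ c : ZMod k, |∑ i ∈ Finset.range q, eps k (c + 2 * (i : ZMod k) * θ)| ≤ 12 :=
    fun c => hBLK k hk2 θ c q a hq hg hap
  have hqR : (0 : ℝ) < q := by exact_mod_cast hq
  have hkR : (0 : ℝ) < k := by exact_mod_cast (by omega : 0 < k)
  have hlog : 0 ≤ Real.log k := Real.log_natCast_nonneg k
  rw [sum_eq k U hkodd (fun u => w k u * eps k ((u : ZMod k) * θ))]
  set u1 : ℕ := U + 1 + U % 2 with hu1
  set m : ℕ := (k - u1) / 2 with hm
  have hRHS : 0 ≤ 12 * k * (1 + Real.log k) / q + (q : ℝ) * k / (U + 1) := by positivity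
  rcases Nat.eq_zero_or_pos m with hm0 | hmpos
  · rw [hm0]; simpa using hRHS
  have hu1k : u1 < k := by omega
  have hu1pos : 0 < u1 := by omega
  have hmi : ∀ i, i < m → u1 + 2 * i < k := by intro i hi; omega
  have hA := hABEL m (fun i => w k (u1 + 2 * i))
    (fun i => eps k (((u1 + 2 * i : ℕ) : ZMod k) * θ)) (fun j => 12 * (j : ℝ) / q + q)
    (by simpa using (hpos u1 hu1pos hu1k).le)
    (by intro i hi; exact (hpos _ (by omega) (hmi i hi)).le)
    (by intro i hi; exact hanti _ _ (by omega) (by omega) (hmi (i + 1) hi))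
    (by
      intro j _ _
      have h := partial_sum k θ q hq hB ((u1 : ZMod k) * θ) j
      have e : ∑ i ∈ Finset.range j, eps k (((u1 + 2 * i : ℕ) : ZMod k) * θ) =
          ∑ i ∈ Finset.range j, eps k ((u1 : ZMod k) * θ + 2 * (i : ZMod k) * θ) := by
        apply Finset.sum_congr rfl
        intro i _
        congr 1
        push_cast
        ring
      rw [e]
      exact h)
    (by simp)
  refine hA.trans ?_
  have e1 : ∑ i ∈ Finset.range m, w k (u1 + 2 * i) *
      ((12 * ((i + 1 : ℕ) : ℝ) / q + q) - (12 * (i : ℝ) / q + q)) =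
      12 / q * ∑ i ∈ Finset.range m, w k (u1 + 2 * i) := by
    rw [Finset.mul_sum]
    apply Finset.sum_congr rfl
    intro i _
    push_cast
    ring
  have e2 : ∑ i ∈ Finset.range m, w k (u1 + 2 * i) ≤ k * (1 + Real.log k) := by
    have h := sum_eq k U hkodd (fun u => w k u)
    rw [← hu1, ← hm] at h
    rw [← h]
    refine le_trans ?_ htot
    apply Finset.sum_le_sum_of_subset_of_nonneg (Finset.filter_subset _ _)
    intro u hu _
    unfold odds at hu
    rw [Finset.mem_filter, Finset.mem_range] at hu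
    exact (hpos u (by omega) hu.1).le
  have e3 : w k u1 ≤ k / (U + 1) := by
    refine (hle u1 hu1pos hu1k).trans ?_
    have hpi := Real.pi_gt_three
    have hU : (0 : ℝ) < (U : ℝ) + 1 := by positivity
    have hu1R : (U : ℝ) + 1 ≤ u1 := by
      have : U + 1 ≤ u1 := by omega
      exact_mod_cast this
    have hu1R0 : (0 : ℝ) < u1 := by linarith
    rw [div_le_div_iff₀ (by positivity) hU]
    have h1 : (2 : ℝ) * ((U : ℝ) + 1) ≤ Real.pi * u1 := by nlinarith
    nlinarith
  have e4 : w k (u1 + 2 * 0) = w k u1 := by rw [Nat.mul_zero, Nat.add_zero]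
  have e5 : (12 * ((0 : ℕ) : ℝ) / q + q) = q := by simp
  calc w k (u1 + 2 * 0) * (12 * ((0 : ℕ) : ℝ) / q + q) +
        ∑ i ∈ Finset.range m, w k (u1 + 2 * i) *
          ((12 * ((i + 1 : ℕ) : ℝ) / q + q) - (12 * (i : ℝ) / q + q))
      = w k u1 * q + 12 / q * ∑ i ∈ Finset.range m, w k (u1 + 2 * i) := by rw [e1, e4, e5]
    _ ≤ (k / (U + 1)) * q + 12 / q * (k * (1 + Real.log k)) := by
        apply add_le_add
        · exact mul_le_mul_of_nonneg_right e3 hqR.le
        · exact mul_le_mul_of_nonneg_left e2 (by positivity)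
    _ = 12 * k * (1 + Real.log k) / q + (q : ℝ) * k / (U + 1) := by ring

end Pool.Agent.H33.PO.TAIL
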